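import Pool.Agent.W_MP_c93f48_co.Classify
import Pool.Agent.W_MP_c93f48_co.TwoLetters

set_option autoImplicit false

namespace Pool.Agent.Results.MP_c93f48_co.Classification

/-- Additive cubes are avoidable over the finite alphabet `A` of natural numbers: there is an
infinite word `x` over `A` none of whose factors consists of three consecutive nonempty blocks of
the same length `n` and the same sum. -/
def AdditiveCubesAvoidable (A : Finset ℕ) : Prop :=
  ∃ x : ℕ → ℕ, (∀ i, x i ∈ A) ∧
    ∀ i n : ℕ, 0 < n →
      ¬ (∑ k ∈ Finset.range n, x (i + k) = ∑ k ∈ Finset.range n, x (i + n + k) ∧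
        ∑ k ∈ Finset.range n, x (i + n + k) = ∑ k ∈ Finset.range n, x (i + 2 * n + k))

/-- Additive cubes are avoidable over a finite set `A` of natural numbers if and only if `A` has
at least three elements. -/
theorem result (A : Finset ℕ) : AdditiveCubesAvoidable A ↔ 3 ≤ A.card := by
  constructor
  · rintro ⟨x, hx, hc⟩
    by_contra hlt
    push Not at hlt
    have hpq : ∃ p q : ℕ, ∀ a ∈ A, a = p ∨ a = q := by
      have h3 : A.card = 0 ∨ A.card = 1 ∨ A.card = 2 := by omega
      rcases h3 with h | h | h
      · rw [Finset.card_eq_zero] at h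
        exact ⟨0, 0, by simp [h]⟩
      · obtain ⟨p, rfl⟩ := Finset.card_eq_one.1 h
        exact ⟨p, p, by simp⟩
      · obtain ⟨p, q, -, rfl⟩ := Finset.card_eq_two.1 h
        exact ⟨p, q, by simp⟩
    obtain ⟨p, q, hpq⟩ := hpq
    exact W_MP_c93f48_co.not_noCube_two p q x (fun i => hpq _ (hx i)) hc
  · intro h
    obtain ⟨x, hx, hc⟩ := W_MP_c93f48_co.av_of_card A h
    exact ⟨x, fun i => hx i, hc⟩

end Pool.Agent.Results.MP_c93f48_co.Classification
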